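import Pool.Agent.Subspace.RFFinal

/-!
# In most windows of consecutive powers one power contains every digit block many times
-/

set_option autoImplicit false

namespace Pool.Agent.WB65

open SST Pool.Agent.DigitPowers

/-- Counting: the far levels at the end of a window of `K` consecutive times give occurrences of the
block `w` at most times of the window, for all large `K`. -/
theorem window_count' {p q : ℕ} (hp : 2 ≤ p) (hq : 2 ≤ q) (hpq : Nat.Coprime p q)
    {k w : ℕ} (hk : 1 ≤ k) (hw : w < q ^ k) {δ : ℝ} (hδ : 0 < δ) :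
    ∃ D K₀ : ℕ, 0 < D ∧ ∀ K : ℕ, K₀ ≤ K → ∃ C : ℕ, 0 < C ∧ ∀ m : ℕ, 1 ≤ m →
      (((Finset.range K).filter fun j =>
        (C : ℝ) * (1 + ((blockPos q k w (m * p ^ j)).card : ℝ)) <
          ((farSet q 0 ((m : ℤ) * (D * p ^ K : ℕ))).card : ℝ)).card : ℝ) ≤ δ * K := by
  classical
  have hq0 : (0 : ℝ) < q := by exact_mod_cast (by omega : 0 < q)
  set U : Set UnitAddCircle := (fun x : ℝ => (x : UnitAddCircle)) ''
        Set.Ioo ((w : ℝ) / (q : ℝ) ^ k) (((w : ℝ) + 1) / (q : ℝ) ^ k) with hU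
  have hUopen : IsOpen U := QuotientAddGroup.isOpenMap_coe _ isOpen_Ioo
  have hUne : U.Nonempty := by
    refine Set.Nonempty.image _ (Set.nonempty_Ioo.2 ?_)
    gcongr
    linarith
  obtain ⟨D, K₀, hD, hK₀⟩ := uniform_hit hp hq hpq hUopen hUne (half_pos hδ)
    (show (0 : ℝ) < 1 / ((q : ℝ) + 1) by positivity)
  refine ⟨D, K₀, hD, ?_⟩
  intro K hKK
  obtain ⟨C', hC'⟩ := hK₀ K hKK
  set D' := D * p ^ K with hD'
  set c₀ := Nat.log q ((q + 1) * D') + 2 with hc₀
  refine ⟨2 * (C' + 1) + c₀, by omega, ?_⟩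
  intro m hm
  set F := farSet q 0 ((m : ℤ) * (D' : ℕ)) with hF
  set T := Nat.log q m + 1 with hT
  set F' := F.filter (fun l => l < T) with hF'
  have hFcard : F.card ≤ F'.card + c₀ := far_split hq
  set y : ℕ → UnitAddCircle := fun l => (((m : ℝ) / (q : ℝ) ^ l : ℝ) : UnitAddCircle) with hy
  -- the miss relation
  let M : ℕ → ℕ → Prop := fun j l => ∀ x ∈ {x | ∃ i : ℕ, i ≤ C' ∧ x = q ^ i • y l}, p ^ j • x ∉ U
  have hmiss : ∀ l ∈ F', (((Finset.range K).filter fun j => M j l).card : ℝ) ≤ δ / 2 * K := by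
    intro l hl
    rw [hF', Finset.mem_filter, hF, mem_farSet hq] at hl
    have h1 : 1 / ((q : ℝ) + 1) ≤ ‖(D * p ^ K) • y l‖ := by
      have := norm_of_not_near hq hl.1
      rw [hy]
      simp only
      rw [circle_nsmul_coe]
      have e : ((D * p ^ K : ℕ) : ℝ) * ((m : ℝ) / (q : ℝ) ^ l)
          = (((m : ℤ) * (D' : ℕ) : ℤ) : ℝ) / (q : ℝ) ^ l := by
        rw [hD']
        push_cast; ring
      rw [e]
      exact this
    have h2 := hC' (y l) h1
    unfold missCount at h2
    convert h2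
  -- double counting
  have hdc : ∑ j ∈ Finset.range K, (F'.filter fun l => M j l).card
      = ∑ l ∈ F', ((Finset.range K).filter fun j => M j l).card := by
    simp only [Finset.card_filter]
    exact Finset.sum_comm
  have hdc' : ∑ j ∈ Finset.range K, ((F'.filter fun l => M j l).card : ℝ)
      ≤ δ / 2 * K * F'.card := by
    have e : ∑ j ∈ Finset.range K, ((F'.filter fun l => M j l).card : ℝ)
        = ∑ l ∈ F', (((Finset.range K).filter fun j => M j l).card : ℝ) := by
      exact_mod_cast hdc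
    rw [e]
    calc ∑ l ∈ F', (((Finset.range K).filter fun j => M j l).card : ℝ)
        ≤ ∑ _l ∈ F', δ / 2 * (K : ℝ) := Finset.sum_le_sum hmiss
      _ = _ := by rw [Finset.sum_const, nsmul_eq_mul]; ring
  -- bad times
  set Bad := (Finset.range K).filter fun j =>
        (((2 * (C' + 1) + c₀ : ℕ) : ℝ)) * (1 + ((blockPos q k w (m * p ^ j)).card : ℝ)) <
          (F.card : ℝ) with hBad
  have hbad : ∀ j ∈ Bad, (F'.card : ℝ) / 2 ≤ ((F'.filter fun l => M j l).card : ℝ) := by
    intro j hj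
    rw [hBad, Finset.mem_filter] at hj
    obtain ⟨-, hj⟩ := hj
    have h1 : (F'.filter fun l => ¬ M j l).card ≤ (C' + 1) * (blockPos q k w (m * p ^ j)).card := by
      apply hit_le_blocks hp hq hk hw hm C' j
      · intro l hl
        rw [Finset.mem_filter, hF', Finset.mem_filter] at hl
        exact hl.1.2
      · intro l hl
        rw [Finset.mem_filter] at hl
        have h3 := hl.2
        simp only [M] at h3
        push Not at h3
        obtain ⟨x, ⟨i, hi, rfl⟩, hx⟩ := h3
        exact ⟨i, hi, hx⟩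
    have h2 := Finset.card_filter_add_card_filter_not (s := F') (fun l => M j l)
    have h3 : (((2 * (C' + 1) + c₀) * (1 + (blockPos q k w (m * p ^ j)).card) : ℕ) : ℝ)
        < ((F.card : ℕ) : ℝ) := by
      push_cast at hj ⊢
      exact hj
    have h4 : (2 * (C' + 1) + c₀) * (1 + (blockPos q k w (m * p ^ j)).card) < F.card := by
      exact_mod_cast h3
    have h5 : 2 * ((C' + 1) * (blockPos q k w (m * p ^ j)).card) + c₀ ≤
        (2 * (C' + 1) + c₀) * (1 + (blockPos q k w (m * p ^ j)).card) := by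
      nlinarith [Nat.zero_le (c₀ * (blockPos q k w (m * p ^ j)).card), Nat.zero_le C']
    have h6 : F'.card ≤ 2 * (F'.filter fun l => M j l).card := by omega
    have h7 : (F'.card : ℝ) ≤ 2 * ((F'.filter fun l => M j l).card : ℝ) := by exact_mod_cast h6
    linarith
  rcases Nat.eq_zero_or_pos Bad.card with h0 | hpos
  · rw [h0]
    push_cast
    positivity
  · -- `F'` is nonempty
    have hF'pos : 0 < F'.card := by
      obtain ⟨j, hj⟩ := Finset.card_pos.1 hpos
      rw [hBad, Finset.mem_filter] at hj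
      obtain ⟨-, hj⟩ := hj
      have h3 : (((2 * (C' + 1) + c₀) * (1 + (blockPos q k w (m * p ^ j)).card) : ℕ) : ℝ)
          < ((F.card : ℕ) : ℝ) := by
        push_cast at hj ⊢
        exact hj
      have h4 : (2 * (C' + 1) + c₀) * (1 + (blockPos q k w (m * p ^ j)).card) < F.card := by
        exact_mod_cast h3
      have h5 : c₀ ≤ (2 * (C' + 1) + c₀) * (1 + (blockPos q k w (m * p ^ j)).card) := by
        nlinarith [Nat.zero_le (c₀ * (blockPos q k w (m * p ^ j)).card), Nat.zero_le C']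
      omega
    have h1 : (Bad.card : ℝ) * ((F'.card : ℝ) / 2) ≤ δ / 2 * K * F'.card := by
      calc (Bad.card : ℝ) * ((F'.card : ℝ) / 2) = ∑ _j ∈ Bad, (F'.card : ℝ) / 2 := by
            rw [Finset.sum_const, nsmul_eq_mul]
        _ ≤ ∑ j ∈ Bad, ((F'.filter fun l => M j l).card : ℝ) := Finset.sum_le_sum hbad
        _ ≤ ∑ j ∈ Finset.range K, ((F'.filter fun l => M j l).card : ℝ) := by
            apply Finset.sum_le_sum_of_subset_of_nonneg (Finset.filter_subset _ _)
            intro _ _ _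
            exact Nat.cast_nonneg _
        _ ≤ _ := hdc'
    have h2 : (0 : ℝ) < (F'.card : ℝ) / 2 := by
      have : (0 : ℝ) < F'.card := by exact_mod_cast hF'pos
      linarith
    have h3 : (Bad.card : ℝ) * ((F'.card : ℝ) / 2) ≤ (δ * K) * ((F'.card : ℝ) / 2) := by
      linarith
    exact le_of_mul_le_mul_right h3 h2

/-- In every window of `K + 1` consecutive powers there is one power which contains every block of
length `k` at least `L n` times, and the harmonic sum of `1 + L n` is at most `C N ^ ε`. -/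
theorem all_blocks {p q : ℕ} (hp : 2 ≤ p) (hq : 2 ≤ q) (hpq : Nat.Coprime p q)
    {k : ℕ} (hk : 1 ≤ k) :
    ∃ K : ℕ, ∀ ε : ℝ, 0 < ε → ∃ C : ℝ, 0 < C ∧ ∀ A : ℕ, 1 ≤ A → ∃ L : ℕ → ℕ,
      (∀ n, ∃ i ≤ K, ∀ w < q ^ k, L n ≤ (blockPos q k w (A * p ^ (n + i))).card) ∧
      ∀ N : ℕ, ∑ n ∈ Finset.range N, 1 / (1 + (L n : ℝ)) ≤ C * (N : ℝ) ^ ε := by
  classical
  have hqk : 0 < q ^ k := Nat.pow_pos (by omega)
  have hqkr : (0 : ℝ) < ((q ^ k : ℕ) : ℝ) := by exact_mod_cast hqk
  have : NeZero (q ^ k) := ⟨hqk.ne'⟩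
  set δ : ℝ := 1 / (2 * ((q ^ k : ℕ) : ℝ)) with hδdef
  have hδ : 0 < δ := by positivity
  have hw := fun w : Fin (q ^ k) => window_count' hp hq hpq hk w.2 hδ
  choose D K₀ hD hK₀ using hw
  set K : ℕ := Finset.univ.sup K₀ + 1 with hK
  have hKw : ∀ w, K₀ w ≤ K := fun w =>
    (Finset.le_sup (f := K₀) (Finset.mem_univ w)).trans (Nat.le_succ _)
  choose Cw hCw0 hCw using fun w => hK₀ w K (hKw w)
  have hK0 : 0 < K := Nat.succ_pos _
  have hKr : (0 : ℝ) < K := by exact_mod_cast hK0
  refine ⟨K, ?_⟩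
  intro ε hε
  obtain ⟨C₂, hC₂, hharm⟩ := harmonic_eps hp hq hpq hε
  set Ct : ℝ := ∑ w, (Cw w : ℝ) with hCt
  have hCt0 : 0 < Ct := by
    apply Finset.sum_pos
    · intro w _
      exact_mod_cast hCw0 w
    · exact Finset.univ_nonempty
  refine ⟨Ct * (C₂ * ((K : ℝ) + 1) ^ ε), by positivity, ?_⟩
  intro A hA
  have hAD : ∀ w, (A : ℤ) * (D w : ℤ) ≠ 0 := by
    intro w
    have h1 : A ≠ 0 := by omega
    exact mul_ne_zero (by exact_mod_cast h1) (by exact_mod_cast (hD w).ne')
  set far : Fin (q ^ k) → ℕ → ℝ := fun w n =>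
    (farN p q ((A : ℤ) * (D w : ℤ)) 0 (n + K) : ℝ) with hfar
  have hfarpos : ∀ w n, 0 < far w n := fun w n => farN_pos hq hp (hAD w) _
  -- the good time
  have hgood : ∀ n, ∃ i, i ≤ K ∧ ∀ w : Fin (q ^ k),
      far w n ≤ (Cw w : ℝ) * (1 + ((blockPos q k w (A * p ^ (n + i))).card : ℝ)) := by
    intro n
    set Bad : Fin (q ^ k) → Finset ℕ := fun w => (Finset.range K).filter fun j =>
      (Cw w : ℝ) * (1 + ((blockPos q k w (A * p ^ (n + j))).card : ℝ)) < far w n with hBad
    have hBc : ∀ w, ((Bad w).card : ℝ) ≤ δ * K := by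
      intro w
      have h1 := hCw w (A * p ^ n) (Nat.mul_pos (by omega) (by positivity))
      refine le_trans (le_of_eq ?_) h1
      congr 2
      rw [hBad]
      simp only
      apply Finset.filter_congr
      intro j _
      have e1 : A * p ^ n * p ^ j = A * p ^ (n + j) := by ring
      have e2 : ((A * p ^ n : ℕ) : ℤ) * ((D w * p ^ K : ℕ) : ℤ)
          = (p : ℤ) ^ (n + K) * ((A : ℤ) * (D w : ℤ)) := by
        push_cast
        ring
      rw [e1, e2]
      rfl
    have hU : ((Finset.univ.biUnion Bad).card : ℝ) < K := by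
      have h1 : ((Finset.univ.biUnion Bad).card : ℝ) ≤ ∑ w, ((Bad w).card : ℝ) := by
        exact_mod_cast Finset.card_biUnion_le
      have h2 : ∑ w, ((Bad w).card : ℝ) ≤ ∑ _w : Fin (q ^ k), δ * K :=
        Finset.sum_le_sum fun w _ => hBc w
      have h3 : ∑ _w : Fin (q ^ k), δ * (K : ℝ) = K / 2 := by
        rw [Finset.sum_const, Finset.card_univ, Fintype.card_fin, nsmul_eq_mul, hδdef]
        field_simp
      linarith
    have hU' : (Finset.univ.biUnion Bad).card < (Finset.range K).card := by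
      rw [Finset.card_range]
      exact_mod_cast hU
    obtain ⟨j, hj, hjb⟩ := Finset.exists_mem_notMem_of_card_lt_card hU'
    refine ⟨j, (Finset.mem_range.1 hj).le, ?_⟩
    intro w
    by_contra hcon
    push Not at hcon
    apply hjb
    rw [Finset.mem_biUnion]
    refine ⟨w, Finset.mem_univ _, ?_⟩
    rw [hBad]
    exact Finset.mem_filter.2 ⟨hj, hcon⟩
  choose i hiK hi using hgood
  have hne : (Finset.univ : Finset (Fin (q ^ k))).Nonempty := Finset.univ_nonempty
  refine ⟨fun n => Finset.univ.inf' hne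
    (fun w : Fin (q ^ k) => (blockPos q k w (A * p ^ (n + i n))).card), ?_, ?_⟩
  · intro n
    refine ⟨i n, hiK n, ?_⟩
    intro w hw
    exact Finset.inf'_le (fun w : Fin (q ^ k) => (blockPos q k w (A * p ^ (n + i n))).card)
      (Finset.mem_univ (⟨w, hw⟩ : Fin (q ^ k)))
  · intro N
    rcases Nat.eq_zero_or_pos N with rfl | hN
    · simp only [Finset.range_zero, Finset.sum_empty]
      positivity
    have hN1 : (1 : ℝ) ≤ N := by exact_mod_cast hN
    have hterm : ∀ n, 1 / (1 + ((Finset.univ.inf' hne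
        (fun w : Fin (q ^ k) => (blockPos q k w (A * p ^ (n + i n))).card) : ℕ) : ℝ)) ≤
        ∑ w, (Cw w : ℝ) * (1 / far w n) := by
      intro n
      obtain ⟨w, -, hw⟩ := Finset.exists_mem_eq_inf' hne
        (fun w : Fin (q ^ k) => (blockPos q k w (A * p ^ (n + i n))).card)
      rw [hw]
      have h1 := hi n w
      have h2 := hfarpos w n
      have h3 : (0 : ℝ) ≤ ((blockPos q k w (A * p ^ (n + i n))).card : ℝ) := Nat.cast_nonneg _
      have h4 : 1 / (1 + ((blockPos q k w (A * p ^ (n + i n))).card : ℝ)) ≤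
          (Cw w : ℝ) * (1 / far w n) := by
        rw [mul_one_div, div_le_div_iff₀ (by linarith) h2]
        linarith
      refine h4.trans ?_
      exact Finset.single_le_sum (f := fun w => (Cw w : ℝ) * (1 / far w n))
        (fun w _ => mul_nonneg (Nat.cast_nonneg _) (one_div_nonneg.2 (hfarpos w n).le))
        (Finset.mem_univ w)
    have hsum : ∀ w, ∑ n ∈ Finset.range N, 1 / far w n ≤ C₂ * ((K : ℝ) + 1) ^ ε * (N : ℝ) ^ ε := by
      intro w
      calc ∑ n ∈ Finset.range N, 1 / far w n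
          = ∑ t ∈ (Finset.range N).image (fun n => n + K),
              1 / (farN p q ((A : ℤ) * (D w : ℤ)) 0 t : ℝ) := by
            rw [Finset.sum_image]
            intro x _ y _ hxy
            simpa using hxy
        _ ≤ ∑ t ∈ Finset.range (N + K), 1 / (farN p q ((A : ℤ) * (D w : ℤ)) 0 t : ℝ) := by
            apply Finset.sum_le_sum_of_subset_of_nonneg
            · intro t ht
              rw [Finset.mem_image] at ht
              obtain ⟨n, hn, rfl⟩ := ht
              rw [Finset.mem_range] at hn ⊢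
              omega
            · intro t _ _
              exact one_div_nonneg.2 (farN_pos hq hp (hAD w) t).le
        _ ≤ C₂ * ((N + K : ℕ) : ℝ) ^ ε := hharm _ (hAD w) _
        _ ≤ C₂ * (((K : ℝ) + 1) * N) ^ ε := by
            refine mul_le_mul_of_nonneg_left ?_ hC₂.le
            refine Real.rpow_le_rpow (Nat.cast_nonneg _) ?_ hε.le
            push_cast
            nlinarith
        _ = C₂ * ((K : ℝ) + 1) ^ ε * (N : ℝ) ^ ε := by
            rw [Real.mul_rpow (by positivity) (by positivity)]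
            ring
    calc ∑ n ∈ Finset.range N, 1 / (1 + ((Finset.univ.inf' hne
          (fun w : Fin (q ^ k) => (blockPos q k w (A * p ^ (n + i n))).card) : ℕ) : ℝ))
        ≤ ∑ n ∈ Finset.range N, ∑ w, (Cw w : ℝ) * (1 / far w n) :=
          Finset.sum_le_sum fun n _ => hterm n
      _ = ∑ w, (Cw w : ℝ) * ∑ n ∈ Finset.range N, 1 / far w n := by
          rw [Finset.sum_comm]
          simp only [Finset.mul_sum]
      _ ≤ ∑ w, (Cw w : ℝ) * (C₂ * ((K : ℝ) + 1) ^ ε * (N : ℝ) ^ ε) :=
          Finset.sum_le_sum fun w _ => mul_le_mul_of_nonneg_left (hsum w) (Nat.cast_nonneg _)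
      _ = Ct * (C₂ * ((K : ℝ) + 1) ^ ε) * (N : ℝ) ^ ε := by
          rw [← Finset.sum_mul, hCt]
          ring

end Pool.Agent.WB65
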